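import Pool.Agent.Lib_helper94.SmallPartition

/-!
# MP_f49b6d_al: every infinite group is partitioned into countably many `|G|`-small subsets

Let `G` be an infinite group. There is a partition of `G` into the nonempty pairwise disjoint sets
`A 0, A 1, A 2, ...` such that every `A n` is `|G|`-small, and `κ`-small for every uncountable cardinal
`κ ≤ |G|` (the same partition for all these `κ`). Definitions as in the problem file, for subsets of a
group: left and right `κ`-large, left and right `κ`-small, `κ`-small.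
-/

set_option autoImplicit false

namespace Pool.Agent.Results.MP_f49b6d_al.SmallPartition

open Cardinal Pointwise

universe u

/-- `L` is left `κ`-large: `F L = G` for a set `F` of cardinality less than `κ`. -/
def LeftLarge {G : Type u} [Group G] (κ : Cardinal.{u}) (L : Set G) : Prop :=
  ∃ F : Set G, #F < κ ∧ F * L = Set.univ

/-- `L` is right `κ`-large: `L F = G` for a set `F` of cardinality less than `κ`. -/
def RightLarge {G : Type u} [Group G] (κ : Cardinal.{u}) (L : Set G) : Prop :=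
  ∃ F : Set G, #F < κ ∧ L * F = Set.univ

/-- `A` is left `κ`-small: `L \ A` is left `κ`-large for every left `κ`-large set `L`. -/
def LeftSmall {G : Type u} [Group G] (κ : Cardinal.{u}) (A : Set G) : Prop :=
  ∀ L : Set G, LeftLarge κ L → LeftLarge κ (L \ A)

/-- `A` is right `κ`-small: `L \ A` is right `κ`-large for every right `κ`-large set `L`. -/
def RightSmall {G : Type u} [Group G] (κ : Cardinal.{u}) (A : Set G) : Prop :=
  ∀ L : Set G, RightLarge κ L → RightLarge κ (L \ A)

/-- `A` is `κ`-small: left and right `κ`-small. -/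
def IsSmall {G : Type u} [Group G] (κ : Cardinal.{u}) (A : Set G) : Prop :=
  LeftSmall κ A ∧ RightSmall κ A

/-- The colouring behind the partition, with the bounds for all cardinals at once. -/
theorem exists_colouring (G : Type u) [Group G] [Infinite G] :
    ∃ c : G → ℕ, ∀ κ : Cardinal.{u}, κ ≤ #G → (κ = #G ∨ ℵ₀ < κ) → ∀ n : ℕ, ∀ H : Set G, #H < κ →
      ∃ K : Set G, #K < κ ∧ ∀ g : G, ∃ k ∈ K, ∀ h ∈ H, n < c (h * k * g) := by
  by_cases hG : ℵ₀ < #G
  · obtain ⟨c, hc⟩ := Pool.Agent.Lib_helper94.SmallPartition.good #G G rfl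
    refine ⟨c, fun κ hκ hκ' n H hH => ?_⟩
    have hκ0 : ℵ₀ < κ := by
      rcases hκ' with h | h
      · rw [h]; exact hG
      · exact h
    obtain ⟨K, hK, hK'⟩ := hc (max #H ℵ₀) (le_max_right _ _) ((max_lt hH hκ0).trans_le hκ) H
      (le_max_left _ _)
    exact ⟨K, hK.trans_lt (max_lt hH hκ0), fun g => hK' g n⟩
  · obtain ⟨c, hc⟩ := Pool.Agent.Lib_helper94.SmallPartition.one_sided G
    refine ⟨c, fun κ hκ hκ' n H hH => ?_⟩
    have hκG : κ = #G := by
      rcases hκ' with h | h
      · exact h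
      · exact absurd (h.trans_le hκ) hG
    subst hκG
    exact hc n H hH

/-- The fibres of a colouring of this kind are small on the left. -/
theorem leftSmall_of {G : Type u} [Group G] {κ : Cardinal.{u}} (hκ : ℵ₀ ≤ κ) (c : G → ℕ)
    (hc : ∀ n : ℕ, ∀ H : Set G, #H < κ →
      ∃ K : Set G, #K < κ ∧ ∀ g : G, ∃ k ∈ K, ∀ h ∈ H, n < c (h * k * g)) (m : ℕ) :
    LeftSmall κ {x : G | c x = m} := by
  rintro L ⟨F, hF, hL⟩
  obtain ⟨K, hK, hKp⟩ := hc m F⁻¹ (by
    have h1 : (F⁻¹ : Set G) = (fun a => a⁻¹) '' F := (Set.image_inv_eq_inv).symm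
    rw [h1]
    exact Cardinal.mk_image_le.trans_lt hF)
  refine ⟨K⁻¹ * F, ?_, ?_⟩
  · have h1 : #(K⁻¹ * F : Set G) ≤ #(K⁻¹ : Set G) * #F := Cardinal.mk_mul_le
    have h2 : #(K⁻¹ : Set G) ≤ #K := by
      have h1 : (K⁻¹ : Set G) = (fun a => a⁻¹) '' K := (Set.image_inv_eq_inv).symm
      rw [h1]
      exact Cardinal.mk_image_le
    exact h1.trans_lt (Cardinal.mul_lt_of_lt hκ (h2.trans_lt hK) hF)
  · refine Set.eq_univ_of_forall fun g => ?_
    obtain ⟨k, hk, hkp⟩ := hKp g
    have h1 : k * g ∈ F * L := by rw [hL]; exact Set.mem_univ _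
    obtain ⟨x, hx, y, hy, hxy⟩ := Set.mem_mul.1 h1
    refine Set.mem_mul.2 ⟨k⁻¹ * x, Set.mem_mul.2 ⟨k⁻¹, Set.inv_mem_inv.2 hk, x, hx, rfl⟩, y,
      ⟨hy, ?_⟩, ?_⟩
    · intro hn
      have h3 := hkp x⁻¹ (Set.inv_mem_inv.2 hx)
      have h4 : x⁻¹ * k * g = y := by rw [mul_assoc, ← hxy]; group
      rw [h4, show c y = m from hn] at h3
      exact lt_irrefl _ h3
    · rw [mul_assoc, hxy]; group

/-- Inversion exchanges the two sides. -/
theorem rightSmall_of {G : Type u} [Group G] {κ : Cardinal.{u}} {A : Set G}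
    (h : LeftSmall κ A⁻¹) : RightSmall κ A := by
  have key : ∀ L : Set G, RightLarge κ L ↔ LeftLarge κ L⁻¹ := by
    intro L
    have h1 : ∀ K : Set G, #(K⁻¹ : Set G) ≤ #K := by
      intro K
      rw [← Set.image_inv_eq_inv]
      exact Cardinal.mk_image_le
    constructor
    · rintro ⟨F, hF, hL⟩
      refine ⟨F⁻¹, (h1 F).trans_lt hF, ?_⟩
      rw [← mul_inv_rev, hL, Set.inv_univ]
    · rintro ⟨F, hF, hL⟩
      refine ⟨F⁻¹, (h1 F).trans_lt hF, ?_⟩
      have h2 : (F * L⁻¹)⁻¹ = (Set.univ : Set G) := by rw [hL, Set.inv_univ]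
      rwa [mul_inv_rev, inv_inv] at h2
  intro L hL
  have h2 := h L⁻¹ ((key L).1 hL)
  have h3 : ((L \ A)⁻¹ : Set G) = L⁻¹ \ A⁻¹ := by
    ext x
    simp only [Set.mem_inv, Set.mem_sdiff]
  rw [key, h3]
  exact h2

theorem isSmall_mono {G : Type u} [Group G] {κ : Cardinal.{u}} {A B : Set G} (hAB : A ⊆ B)
    (h : IsSmall κ B) : IsSmall κ A := by
  refine ⟨fun L hL => ?_, fun L hL => ?_⟩
  · obtain ⟨F, hF, hF'⟩ := h.1 L hL
    refine ⟨F, hF, Set.eq_univ_of_subset (Set.mul_subset_mul_left ?_) hF'⟩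
    exact Set.sdiff_subset_sdiff_right hAB
  · obtain ⟨F, hF, hF'⟩ := h.2 L hL
    refine ⟨F, hF, Set.eq_univ_of_subset (Set.mul_subset_mul_right ?_) hF'⟩
    exact Set.sdiff_subset_sdiff_right hAB

/-- Every infinite group `G` is the union of nonempty pairwise disjoint sets `A 0, A 1, ...` which are
`|G|`-small, and `κ`-small for every uncountable cardinal `κ ≤ |G|`. -/
theorem result (G : Type u) [Group G] [Infinite G] :
    ∃ A : ℕ → Set G, (∀ n, (A n).Nonempty) ∧ (∀ m n, m ≠ n → Disjoint (A m) (A n)) ∧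
      (⋃ n, A n) = Set.univ ∧
      ∀ n, IsSmall #G (A n) ∧ ∀ κ : Cardinal.{u}, ℵ₀ < κ → κ ≤ #G → IsSmall κ (A n) := by
  classical
  obtain ⟨c, hc⟩ := exists_colouring G
  have hinf : ℵ₀ ≤ #G := Cardinal.aleph0_le_mk G
  -- the two sided colouring
  obtain ⟨f, hf⟩ : ∃ f : G → ℕ, f = fun x => Nat.pair (c x) (c x⁻¹) := ⟨_, rfl⟩
  have hsmall : ∀ κ : Cardinal.{u}, κ ≤ #G → (κ = #G ∨ ℵ₀ < κ) → ∀ n : ℕ,
      IsSmall κ {x : G | f x = n} := by
    intro κ h1 h2 n
    have h0 : ℵ₀ ≤ κ := by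
      rcases h2 with h | h
      · rw [h]; exact hinf
      · exact h.le
    have h3 := leftSmall_of h0 c (hc κ h1 h2)
    have h4 : RightSmall κ {x : G | c x⁻¹ = (Nat.unpair n).2} := by
      refine rightSmall_of ?_
      have h5 : ({x : G | c x⁻¹ = (Nat.unpair n).2}⁻¹ : Set G) = {x : G | c x = (Nat.unpair n).2} := by
        ext x; simp
      rw [h5]
      exact h3 _
    refine ⟨fun L hL => ?_, fun L hL => ?_⟩
    · obtain ⟨F, hF, hF'⟩ := h3 (Nat.unpair n).1 L hL
      refine ⟨F, hF, Set.eq_univ_of_subset (Set.mul_subset_mul_left ?_) hF'⟩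
      refine Set.sdiff_subset_sdiff_right fun x hx => ?_
      have : f x = n := hx
      rw [hf] at this
      show c x = _
      rw [← this]; simp
    · obtain ⟨F, hF, hF'⟩ := h4 L hL
      refine ⟨F, hF, Set.eq_univ_of_subset (Set.mul_subset_mul_right ?_) hF'⟩
      refine Set.sdiff_subset_sdiff_right fun x hx => ?_
      have : f x = n := hx
      rw [hf] at this
      show c x⁻¹ = _
      rw [← this]; simp
  -- infinitely many colours are used
  have hrange : (Set.range f).Infinite := by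
    intro hfin
    have key : ∀ T : Finset ℕ, LeftLarge #G {x : G | f x ∉ T} := by
      intro T
      induction T using Finset.induction_on with
      | empty =>
        refine ⟨{1}, ?_, ?_⟩
        · rw [Cardinal.mk_singleton]
          exact Cardinal.one_lt_aleph0.trans_le hinf
        · simp
      | insert a T ha ih =>
        have h1 := (hsmall #G le_rfl (Or.inl rfl) a).1 _ ih
        have h2 : {x : G | f x ∉ T} \ {x : G | f x = a} = {x : G | f x ∉ insert a T} := by
          ext x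
          simp only [Set.mem_sdiff, Set.mem_ofPred_eq, Finset.mem_insert, not_or]
          tauto
        rwa [h2] at h1
    obtain ⟨F, -, hF⟩ := key hfin.toFinset
    have h1 : {x : G | f x ∉ hfin.toFinset} = ∅ := by
      ext x; simp
    rw [h1, Set.mul_empty] at hF
    exact Set.empty_ne_univ hF
  have hInf : Infinite (Set.range f) := hrange.to_subtype
  let e : ℕ ≃o Set.range f := Nat.Subtype.orderIsoOfNat (Set.range f)
  refine ⟨fun n => {x : G | f x = (e n : ℕ)}, fun n => ?_, fun m n hmn => ?_, ?_, fun n => ?_⟩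
  · obtain ⟨x, hx⟩ := (e n).2
    exact ⟨x, hx⟩
  · refine Set.disjoint_left.2 fun x hx hx' => hmn ?_
    have h1 : (e m : ℕ) = (e n : ℕ) := by
      rw [← show f x = (e m : ℕ) from hx, ← show f x = (e n : ℕ) from hx']
    exact e.injective (Subtype.ext h1)
  · refine Set.eq_univ_of_forall fun x => Set.mem_iUnion.2 ⟨e.symm ⟨f x, x, rfl⟩, ?_⟩
    simp
  · exact ⟨hsmall _ le_rfl (Or.inl rfl) _, fun κ h1 h2 => hsmall κ h2 (Or.inr h1) _⟩

end Pool.Agent.Results.MP_f49b6d_al.SmallPartition
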